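import Mathlib
import Pool.Agent.H63.ZT.Base
import Pool.Agent.H56.ZK.Rule

/-!
# MP_07f90a_co: `m(n,k)` is at least `C(n,k)` times a constant times `k ^ (-3/2)`

For every `n` and every `k ≥ 2`, `m(n,k) ≥ C(n,k) / (32 k ^ (3/2))`.

For odd `k` label the `n` points at random with `N ≈ √3 k ^ (3/2)` labels.  In a typical `k`-set some
labels occur twice (about `√k` of them) but none three times.  The edges are the `k`-sets for which
the sum of every second label is a prescribed residue modulo `N`, which satisfy a code condition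
(modulo `3`) on the positions of the labels occurring twice, and for which a random function summed
over the transversals of the labels occurring twice is odd (`Pool.Agent.H56.ZK.Edge`).  For even `k`
the cup product with a complete bipartite graph is used.
-/

namespace Pool.Agent.Results.MP_07f90a_co.ThreeHalvesLowerBound

open Pool.Agent.H63ZT Pool.Agent.H56.ZK

/-- A family `H` of `k`-element subsets of an `n`-element set is admissible if every
`(k+1)`-element subset contains exactly `0` or exactly `2` members of `H`. -/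
def Admissible (n k : ℕ) (H : Finset (Finset (Fin n))) : Prop :=
  (∀ E ∈ H, E.card = k) ∧
    ∀ S : Finset (Fin n), S.card = k + 1 →
      (H.filter (fun E => E ⊆ S)).card = 0 ∨ (H.filter (fun E => E ⊆ S)).card = 2

/-- `m n k` is the largest size of an admissible `k`-uniform family on `n` points. -/
noncomputable def m (n k : ℕ) : ℕ :=
  sSup {h : ℕ | ∃ H : Finset (Finset (Fin n)), Admissible n k H ∧ H.card = h}

lemma le_m {n k : ℕ} {H : Finset (Finset (Fin n))} (hH : Admissible n k H) : H.card ≤ m n k := by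
  refine le_csSup ⟨Fintype.card (Finset (Fin n)), ?_⟩ ⟨H, hH, rfl⟩
  rintro _ ⟨H', -, rfl⟩
  exact Finset.card_le_univ _

lemma choose_le {n k b : ℕ} (hk : 1 ≤ k) (h : Dense n k 1 b) : n.choose k ≤ b * m n k := by
  rcases lt_or_ge n k with hn | hn
  · rw [Nat.choose_eq_zero_of_lt hn]
    exact Nat.zero_le _
  · obtain ⟨H, hH1, hH2, hH3⟩ := exists_fam hk hn h
    rw [one_mul] at hH3
    exact hH3.trans (Nat.mul_le_mul_left _ (le_m ⟨hH1, hH2⟩))

lemma rpow_sq (k : ℕ) : ((k : ℝ) ^ (3 / 2 : ℝ)) ^ 2 = (k : ℝ) ^ 3 := by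
  rw [← Real.rpow_natCast, ← Real.rpow_mul (Nat.cast_nonneg k), ← Real.rpow_natCast]
  norm_num

lemma final {n k b B : ℕ} (hk : 1 ≤ k) (h : n.choose k ≤ b * m n k)
    (hb : (b : ℝ) ≤ B * (k : ℝ) ^ (3 / 2 : ℝ)) (hB : 0 < B) :
    (n.choose k : ℝ) / (B * (k : ℝ) ^ (3 / 2 : ℝ)) ≤ m n k := by
  have hk' : (0 : ℝ) < k := by exact_mod_cast hk
  have hr : (0 : ℝ) < (k : ℝ) ^ (3 / 2 : ℝ) := Real.rpow_pos_of_pos hk' _
  have hB' : (0 : ℝ) < B := by exact_mod_cast hB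
  rw [div_le_iff₀ (by positivity)]
  have h1 : (n.choose k : ℝ) ≤ b * m n k := by exact_mod_cast h
  calc (n.choose k : ℝ) ≤ b * m n k := h1
    _ ≤ (B * (k : ℝ) ^ (3 / 2 : ℝ)) * m n k := mul_le_mul_of_nonneg_right hb (Nat.cast_nonneg _)
    _ = _ := mul_comm _ _

lemma odd_bound {n k : ℕ} (hk : k % 2 = 1) (hk3 : 3 ≤ k) :
    (n.choose k : ℝ) / (18 * (k : ℝ) ^ (3 / 2 : ℝ)) ≤ m n k := by
  set s := Nat.sqrt (3 * k ^ 3) with hs
  have h1 : s ^ 2 ≤ 3 * k ^ 3 := Nat.sqrt_le' _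
  have h2 : 3 * k ^ 3 < (s + 1) ^ 2 := Nat.lt_succ_sqrt' _
  have hd : Dense n k 1 (9 * (s + 1)) := dense_odd hk h2.le
  have hc := choose_le (by omega) hd
  have h27 : 27 ≤ k ^ 3 := by
    calc 27 = 3 ^ 3 := by norm_num
      _ ≤ k ^ 3 := Nat.pow_le_pow_left hk3 3
  have h3 : 2 * s + 1 ≤ k ^ 3 := by
    by_contra hcon
    push Not at hcon
    generalize k ^ 3 = y at h1 h27 hcon
    nlinarith
  have h4 : (s + 1) ^ 2 ≤ 4 * k ^ 3 := by
    have : (s + 1) ^ 2 = s ^ 2 + (2 * s + 1) := by ring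
    omega
  have hr : (0 : ℝ) ≤ (k : ℝ) ^ (3 / 2 : ℝ) := Real.rpow_nonneg (Nat.cast_nonneg k) _
  have h5 : ((s : ℝ) + 1) ≤ 2 * (k : ℝ) ^ (3 / 2 : ℝ) := by
    have h6 : ((s : ℝ) + 1) ^ 2 ≤ (2 * (k : ℝ) ^ (3 / 2 : ℝ)) ^ 2 := by
      rw [mul_pow, rpow_sq]
      have : (((s + 1) ^ 2 : ℕ) : ℝ) ≤ ((4 * k ^ 3 : ℕ) : ℝ) := by exact_mod_cast h4
      push_cast at this
      linarith
    exact (sq_le_sq₀ (by positivity) (by positivity)).1 h6
  have h7 := final (B := 18) (by omega) hc (by push_cast; linarith) (by norm_num)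
  exact_mod_cast h7

lemma even_bound {n k : ℕ} (hk : k % 2 = 0) (hk2 : 2 ≤ k) :
    (n.choose k : ℝ) / (32 * (k : ℝ) ^ (3 / 2 : ℝ)) ≤ m n k := by
  obtain ⟨p, rfl⟩ : ∃ p, k = p + 2 := ⟨k - 2, by omega⟩
  set j := p + 1 with hj
  set s := Nat.sqrt (3 * j ^ 3) with hs
  have h1 : s ^ 2 ≤ 3 * j ^ 3 := Nat.sqrt_le' _
  have h2 : 3 * j ^ 3 < (s + 1) ^ 2 := Nat.lt_succ_sqrt' _
  have hd : Dense n j 1 (9 * (s + 1)) := dense_odd (by omega) h2.le
  have hd' : Dense n (p + 1 + 1) (1 * 1) (9 * (s + 1) * 2) := Dense.cup hd (dense2 n)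
  have hc := choose_le (by omega) hd'
  have h3 : s ≤ 2 * j ^ 2 := by
    by_contra hcon
    push Not at hcon
    have hj1 : 1 ≤ j := by omega
    have h5 : (2 * j ^ 2) ^ 2 < s ^ 2 := Nat.pow_lt_pow_left hcon (by norm_num)
    have h6 : j ^ 3 ≤ j ^ 4 := Nat.pow_le_pow_right hj1 (by norm_num)
    have h7 : (2 * j ^ 2) ^ 2 = 4 * j ^ 4 := by ring
    omega
  have h4 : (s + 1) ^ 2 ≤ 3 * (p + 2) ^ 3 := by
    have e1 : (s + 1) ^ 2 = s ^ 2 + (2 * s + 1) := by ring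
    have e2 : 3 * (p + 2) ^ 3 = 3 * j ^ 3 + 9 * j ^ 2 + 9 * j + 3 := by rw [hj]; ring
    omega
  have hr : (0 : ℝ) ≤ ((p + 2 : ℕ) : ℝ) ^ (3 / 2 : ℝ) := Real.rpow_nonneg (Nat.cast_nonneg _) _
  have h5 : (18 * ((s : ℝ) + 1)) ≤ 32 * ((p + 2 : ℕ) : ℝ) ^ (3 / 2 : ℝ) := by
    have h6 : (18 * ((s : ℝ) + 1)) ^ 2 ≤ (32 * ((p + 2 : ℕ) : ℝ) ^ (3 / 2 : ℝ)) ^ 2 := by
      rw [mul_pow, mul_pow, rpow_sq]
      have : (((s + 1) ^ 2 : ℕ) : ℝ) ≤ ((3 * (p + 2) ^ 3 : ℕ) : ℝ) := by exact_mod_cast h4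
      have h8 : (0 : ℝ) ≤ ((p + 2 : ℕ) : ℝ) ^ 3 := by positivity
      push_cast at this h8 ⊢
      nlinarith
    exact (sq_le_sq₀ (by positivity) (by positivity)).1 h6
  have h7 := final (B := 32) (k := p + 2) (b := 9 * (s + 1) * 2) (by omega) hc
    (by push_cast at h5 ⊢; linarith) (by norm_num)
  exact_mod_cast h7

/-- **Theorem.** For all `n` and all `k ≥ 2`, `m(n,k) ≥ C(n,k) / (32 k ^ (3/2))`. -/
theorem result (n k : ℕ) (hk : 2 ≤ k) :
    (n.choose k : ℝ) / (32 * (k : ℝ) ^ (3 / 2 : ℝ)) ≤ m n k := by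
  rcases Nat.mod_two_eq_zero_or_one k with h | h
  · exact even_bound h hk
  · refine le_trans ?_ (odd_bound (n := n) h (by omega))
    have hk' : (0 : ℝ) < k := by exact_mod_cast (by omega : 0 < k)
    have hr : (0 : ℝ) < (k : ℝ) ^ (3 / 2 : ℝ) := Real.rpow_pos_of_pos hk' _
    apply div_le_div_of_nonneg_left (Nat.cast_nonneg _) (by positivity)
    linarith

end Pool.Agent.Results.MP_07f90a_co.ThreeHalvesLowerBound
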